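import Mathlib
import Pool.Agent.Q52.HE.Stm

/-!
# Over an algebraically closed field the smooth normal forms are the surfaces `S(x, y)`
-/

set_option autoImplicit false

namespace Pool.Agent.Q210.HE

open Finset Polynomial Pool.Agent.Q52.HE

section
variable {K : Type} [Field K]

theorem cub_arrN (β γ g3 g2 g1 g0 : K) (s t z w : K) :
    cub (arrN β γ g3 g2 g1 g0) ![s, t, z, w] =
      z * s ^ 2 - w * t ^ 2 + 2 * β * w ^ 2 * s + 2 * γ * z ^ 2 * t + g3 * z ^ 3 +
        g2 * z ^ 2 * w + g1 * z * w ^ 2 + g0 * w ^ 3 := by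
  simp [cub, arrN, Fin.sum_univ_four]
  ring

theorem grad_arrN (β γ g3 g2 g1 g0 : K) (s t z w : K) :
    grad (arrN β γ g3 g2 g1 g0) ![s, t, z, w] =
      ![2 * z * s + 2 * β * w ^ 2, -2 * w * t + 2 * γ * z ^ 2,
        s ^ 2 + 4 * γ * z * t + 3 * g3 * z ^ 2 + 2 * g2 * z * w + g1 * w ^ 2,
        -t ^ 2 + 4 * β * w * s + g2 * z ^ 2 + 2 * g1 * z * w + 3 * g0 * w ^ 2] := by
  ext m
  fin_cases m <;> simp [grad, arrN, Fin.sum_univ_four] <;> ring

theorem not_smooth {β γ g3 g2 g1 g0 : K} (s t z w : K) (hne : z ≠ 0 ∨ w ≠ 0)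
    (h : z * s ^ 2 - w * t ^ 2 + 2 * β * w ^ 2 * s + 2 * γ * z ^ 2 * t + g3 * z ^ 3 +
        g2 * z ^ 2 * w + g1 * z * w ^ 2 + g0 * w ^ 3 = 0)
    (h0 : 2 * z * s + 2 * β * w ^ 2 = 0) (h1 : -2 * w * t + 2 * γ * z ^ 2 = 0)
    (h2 : s ^ 2 + 4 * γ * z * t + 3 * g3 * z ^ 2 + 2 * g2 * z * w + g1 * w ^ 2 = 0)
    (h3 : -t ^ 2 + 4 * β * w * s + g2 * z ^ 2 + 2 * g1 * z * w + 3 * g0 * w ^ 2 = 0)
    (hs : Smooth (arrN β γ g3 g2 g1 g0)) : False := by
  refine hs ![s, t, z, w] ?_ ?_ ?_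
  · intro h4
    rcases hne with h5 | h5
    · exact h5 (congrFun h4 2)
    · exact h5 (congrFun h4 3)
  · rw [cub_arrN]
    exact h
  · rw [grad_arrN, h0, h1, h2, h3]
    ext m
    fin_cases m <;> rfl

/-- the signs of the square roots -/
theorem finish [IsAlgClosed K] {β γ g3 g2 g1 g0 : K} (ξ y : Fin 5 → K) (hγ : γ = -pr y)
    (hβ : pr ξ = β ^ 2) (h3 : g3 = -pc ξ (y ^ 2) 1) (h2 : g2 = pc ξ (y ^ 2) 2)
    (h1 : g1 = -pc ξ (y ^ 2) 3) (h0 : g0 = pc ξ (y ^ 2) 4)
    (hnd : ∀ i j, i ≠ j → ξ i * y j ^ 2 ≠ ξ j * y i ^ 2) :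
    ∃ x y : Fin 5 → K, ND x y ∧ arrN β γ g3 g2 g1 g0 = arrS x y := by
  have hx : ∀ i, ∃ r : K, r ^ 2 = ξ i := fun i => by
    obtain ⟨r, hr⟩ := IsAlgClosed.exists_pow_nat_eq (ξ i) (n := 2) two_pos
    exact ⟨r, hr⟩
  choose x hx using hx
  have key : ∀ x' : Fin 5 → K, (∀ i, x' i ^ 2 = ξ i) → pr x' = β →
      ∃ x y : Fin 5 → K, ND x y ∧ arrN β γ g3 g2 g1 g0 = arrS x y := by
    intro x' hx' hp
    have hxx : x' ^ 2 = ξ := by
      ext i
      exact hx' i
    refine ⟨x', y, ?_, ?_⟩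
    · intro i j hij
      rw [hx' i, hx' j]
      exact hnd i j hij
    · unfold arrS
      rw [hxx, hp, ← hγ, ← h3, ← h2, ← h1, ← h0]
  have h4 : pr x ^ 2 = β ^ 2 := by
    rw [← hβ]
    unfold pr
    rw [← hx 0, ← hx 1, ← hx 2, ← hx 3, ← hx 4]
    ring
  rcases sq_eq_sq_iff_eq_or_eq_neg.mp h4 with h5 | h5
  · exact key x hx h5
  · refine key (Function.update x 0 (-x 0)) ?_ ?_
    · intro i
      by_cases hi : i = 0
      · subst hi
        rw [Function.update_self, neg_sq, hx 0]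
      · rw [Function.update_of_ne hi, hx i]
    · have h6 : pr (Function.update x 0 (-x 0)) = -pr x := by
        unfold pr
        rw [Function.update_self, Function.update_of_ne (by decide),
          Function.update_of_ne (by decide), Function.update_of_ne (by decide),
          Function.update_of_ne (by decide)]
        ring
      rw [h6, h5, neg_neg]

/-- the discriminant form has no double zero -/
theorem simple {β γ g3 g2 g1 g0 : K} [IsAlgClosed K] (hs : Smooth (arrN β γ g3 g2 g1 g0)) (r : K)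
    (h1 : γ ^ 2 * r ^ 5 + g3 * r ^ 4 + g2 * r ^ 3 + g1 * r ^ 2 + g0 * r - β ^ 2 = 0)
    (h2 : 5 * γ ^ 2 * r ^ 4 + 4 * g3 * r ^ 3 + 3 * g2 * r ^ 2 + 2 * g1 * r + g0 = 0) : False := by
  by_cases hr : r = 0
  · subst hr
    have hβ : β = 0 := by
      have : β ^ 2 = 0 := by linear_combination -h1
      exact pow_eq_zero_iff (two_ne_zero) |>.mp this
    have hg : g0 = 0 := by linear_combination h2
    obtain ⟨s, hs2⟩ := IsAlgClosed.exists_pow_nat_eq (-g1) (n := 2) two_pos
    refine not_smooth s 0 0 1 (Or.inr one_ne_zero) ?_ ?_ ?_ ?_ ?_ hs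
    · rw [hβ, hg]; ring
    · rw [hβ]; ring
    · ring
    · rw [hs2]; ring
    · rw [hβ, hg]; ring
  · have hc : ∀ c : K, r * c = 0 → c = 0 := fun c h =>
      (mul_eq_zero.mp h).resolve_left hr
    have hc2 : ∀ c : K, r ^ 2 * c = 0 → c = 0 := fun c h =>
      (mul_eq_zero.mp h).resolve_left (pow_ne_zero _ hr)
    have hsr : r * (-β / r) = -β := by field_simp
    refine not_smooth (-β / r) (γ * r ^ 2) r 1 (Or.inl hr) ?_ ?_ ?_ ?_ ?_ hs
    · apply hc
      linear_combination h1 + (r * (-β / r) + β) * hsr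
    · linear_combination 2 * hsr
    · ring
    · apply hc2
      linear_combination r * h2 - h1 + (r * (-β / r) - β) * hsr
    · apply hc
      linear_combination 4 * h1 - r * h2 + 4 * β * hsr
end

/-- a polynomial of degree at most five -/
noncomputable def Q5 {K : Type} [Field K] (a b c d e f : K) : K[X] :=
  C a * X ^ 5 + C b * X ^ 4 + C c * X ^ 3 + C d * X ^ 2 + C e * X + C f

section
variable {K : Type} [Field K]

theorem Q5_eval (a b c d e f r : K) : (Q5 a b c d e f).eval r =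
    a * r ^ 5 + b * r ^ 4 + c * r ^ 3 + d * r ^ 2 + e * r + f := by
  simp [Q5]

theorem Q5_deriv (a b c d e f r : K) : (derivative (Q5 a b c d e f)).eval r =
    5 * a * r ^ 4 + 4 * b * r ^ 3 + 3 * c * r ^ 2 + 2 * d * r + e := by
  simp [Q5]
  ring

theorem Q5_coeff (a b c d e f : K) : (Q5 a b c d e f).coeff 5 = a ∧
    (Q5 a b c d e f).coeff 4 = b ∧ (Q5 a b c d e f).coeff 3 = c ∧ (Q5 a b c d e f).coeff 2 = d ∧
    (Q5 a b c d e f).coeff 1 = e ∧ (Q5 a b c d e f).coeff 0 = f := by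
  simp [Q5, coeff_X, coeff_C]

theorem Q5_ext {a b c d e f a' b' c' d' e' f' : K} (h : Q5 a b c d e f = Q5 a' b' c' d' e' f') :
    a = a' ∧ b = b' ∧ c = c' ∧ d = d' ∧ e = e' ∧ f = f' := by
  obtain ⟨h1, h2, h3, h4, h5, h6⟩ := Q5_coeff a b c d e f
  obtain ⟨k1, k2, k3, k4, k5, k6⟩ := Q5_coeff a' b' c' d' e' f'
  rw [h] at h1 h2 h3 h4 h5 h6
  exact ⟨h1.symm.trans k1, h2.symm.trans k2, h3.symm.trans k3, h4.symm.trans k4,
    h5.symm.trans k5, h6.symm.trans k6⟩

theorem Q5_deg (a b c d e f : K) (ha : a ≠ 0) : (Q5 a b c d e f).natDegree = 5 ∧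
    (Q5 a b c d e f).leadingCoeff = a := by
  have h1 : (Q5 a b c d e f).natDegree = 5 := by
    unfold Q5
    compute_degree!
  exact ⟨h1, by rw [leadingCoeff, h1]; exact (Q5_coeff a b c d e f).1⟩

theorem Q5_deg4 (b c d e f : K) (hb : b ≠ 0) : (Q5 0 b c d e f).natDegree = 4 ∧
    (Q5 0 b c d e f).leadingCoeff = b := by
  have h1 : (Q5 0 b c d e f).natDegree = 4 := by
    unfold Q5
    rw [C_0, zero_mul, zero_add]
    compute_degree!
  exact ⟨h1, by rw [leadingCoeff, h1]; exact (Q5_coeff 0 b c d e f).2.1⟩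

end

theorem exists_list {K : Type} [Field K] [IsAlgClosed K] (D : K[X]) (hD : D ≠ 0)
    (hsimp : ∀ r, ¬ (D.IsRoot r ∧ (derivative D).IsRoot r)) :
    ∃ l : List K, l.Nodup ∧ l.length = D.natDegree ∧
      D = C D.leadingCoeff * (l.map fun r => X - C r).prod := by
  classical
  have h1 : D.Splits := IsAlgClosed.splits D
  obtain ⟨l, hl⟩ := Quot.exists_rep D.roots
  have hl' : (l : Multiset K) = D.roots := hl
  refine ⟨l, ?_, ?_, ?_⟩
  · rw [← Multiset.coe_nodup, hl', Multiset.nodup_iff_count_le_one]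
    intro r
    rw [count_roots]
    by_contra hlt
    rw [not_le] at hlt
    exact hsimp r ((one_lt_rootMultiplicity_iff_isRoot hD).mp hlt)
  · rw [← Multiset.coe_card, hl', h1.natDegree_eq_card_roots]
  · have h2 := h1.eq_prod_roots
    rw [← hl', Multiset.map_coe, Multiset.prod_coe] at h2
    exact h2

/-- **J10.** -/
theorem split5 : S_split5 := by
  intro K _ _ _ β γ g3 g2 g1 g0 hs
  obtain ⟨D, hDdef⟩ : ∃ D : K[X], D = Q5 (γ ^ 2) g3 g2 g1 g0 (-β ^ 2) := ⟨_, rfl⟩
  have hsimp : ∀ r, ¬ (D.IsRoot r ∧ (derivative D).IsRoot r) := by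
    rintro r ⟨h1, h2⟩
    refine simple hs r ?_ ?_
    · have h := h1.eq_zero
      rw [hDdef, Q5_eval] at h
      linear_combination h
    · have h := h2.eq_zero
      rw [hDdef, Q5_deriv] at h
      linear_combination h
  by_cases hγ : γ = 0
  · -- degree four
    have hg3 : g3 ≠ 0 := by
      intro hg3
      obtain ⟨t, ht⟩ := IsAlgClosed.exists_pow_nat_eq g2 (n := 2) two_pos
      refine not_smooth 0 t 1 0 (Or.inl one_ne_zero) ?_ ?_ ?_ ?_ ?_ hs
      · rw [hγ, hg3]; ring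
      · ring
      · rw [hγ]; ring
      · rw [hγ, hg3]; ring
      · rw [ht]; ring
    have hD4 : D = Q5 0 g3 g2 g1 g0 (-β ^ 2) := by
      rw [hDdef, hγ, zero_pow two_ne_zero]
    obtain ⟨hnd, hlc⟩ := Q5_deg4 g3 g2 g1 g0 (-β ^ 2) hg3
    rw [← hD4] at hnd hlc
    have hD0 : D ≠ 0 := by
      intro h
      rw [h, natDegree_zero] at hnd
      omega
    obtain ⟨l, hl1, hl2, hl3⟩ := exists_list D hD0 hsimp
    rw [hnd] at hl2
    rw [hlc] at hl3
    match l, hl1, hl2, hl3 with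
    | [r1, r2, r3, r4], hl1, _, hl3 =>
      have he : D = Q5 0 g3 (-g3 * (r1 + r2 + r3 + r4))
          (g3 * (r1 * r2 + r1 * r3 + r1 * r4 + r2 * r3 + r2 * r4 + r3 * r4))
          (-g3 * (r1 * r2 * r3 + r1 * r2 * r4 + r1 * r3 * r4 + r2 * r3 * r4))
          (g3 * (r1 * r2 * r3 * r4)) := by
        rw [hl3]
        unfold Q5
        simp only [List.map_cons, List.map_nil, List.prod_cons, List.prod_nil, mul_one,
          map_mul, map_add, map_neg, map_zero]
        ring
      rw [hD4] at he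
      obtain ⟨-, -, c3, c2, c1, c0⟩ := Q5_ext he
      simp only [List.nodup_cons, List.mem_cons, List.not_mem_nil, or_false, not_or,
        not_false_eq_true, List.nodup_nil, and_true] at hl1
      obtain ⟨⟨n1, n2, n3⟩, ⟨n4, n5⟩, n6⟩ := hl1
      refine finish (K := K) ![-g3, r1, r2, r3, r4] ![0, 1, 1, 1, 1] ?_ ?_ ?_ ?_ ?_ ?_ ?_
      · simp [pr, hγ]
      · simp [pr]
        linear_combination c0
      · simp [pc]
      · simp [pc]
        linear_combination c3
      · simp [pc]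
        linear_combination c2
      · simp [pc]
        linear_combination c1
      · intro i j hij
        fin_cases i <;> fin_cases j <;> first | exact absurd rfl hij | skip
        all_goals simp
        all_goals first | assumption | (intro h; exact absurd h.symm (by assumption))
  · -- degree five
    have hγ2 : γ ^ 2 ≠ 0 := pow_ne_zero _ hγ
    obtain ⟨hnd, hlc⟩ := Q5_deg (γ ^ 2) g3 g2 g1 g0 (-β ^ 2) hγ2
    rw [← hDdef] at hnd hlc
    have hD0 : D ≠ 0 := by
      intro h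
      rw [h, natDegree_zero] at hnd
      omega
    obtain ⟨l, hl1, hl2, hl3⟩ := exists_list D hD0 hsimp
    rw [hnd] at hl2
    rw [hlc] at hl3
    match l, hl1, hl2, hl3 with
    | [r0, r1, r2, r3, r4], hl1, _, hl3 =>
      have he : D = Q5 (γ ^ 2) (-γ ^ 2 * (r0 + r1 + r2 + r3 + r4))
          (γ ^ 2 * (r0 * r1 + r0 * r2 + r0 * r3 + r0 * r4 + r1 * r2 + r1 * r3 + r1 * r4 +
            r2 * r3 + r2 * r4 + r3 * r4))
          (-γ ^ 2 * (r0 * r1 * r2 + r0 * r1 * r3 + r0 * r1 * r4 + r0 * r2 * r3 + r0 * r2 * r4 +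
            r0 * r3 * r4 + r1 * r2 * r3 + r1 * r2 * r4 + r1 * r3 * r4 + r2 * r3 * r4))
          (γ ^ 2 * (r0 * r1 * r2 * r3 + r0 * r1 * r2 * r4 + r0 * r1 * r3 * r4 +
            r0 * r2 * r3 * r4 + r1 * r2 * r3 * r4))
          (-γ ^ 2 * (r0 * r1 * r2 * r3 * r4)) := by
        rw [hl3]
        unfold Q5
        simp only [List.map_cons, List.map_nil, List.prod_cons, List.prod_nil, mul_one,
          map_mul, map_add, map_neg]
        ring
      rw [hDdef] at he
      obtain ⟨-, c4, c3, c2, c1, c0⟩ := Q5_ext he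
      simp only [List.nodup_cons, List.mem_cons, List.not_mem_nil, or_false, not_or,
        not_false_eq_true, List.nodup_nil, and_true] at hl1
      obtain ⟨⟨m1, m2, m3, m4⟩, ⟨n1, n2, n3⟩, ⟨n4, n5⟩, n6⟩ := hl1
      have q1 : ∀ r r' : K, ¬ r = r' → ¬ γ ^ 2 * r = r' * γ ^ 2 := fun r r' h h' =>
        h (mul_left_cancel₀ hγ2 (by linear_combination h'))
      have q2 : ∀ r r' : K, ¬ r = r' → ¬ r' * γ ^ 2 = γ ^ 2 * r := fun r r' h h' =>
        h (mul_left_cancel₀ hγ2 (by linear_combination -h'))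
      refine finish (K := K) ![γ ^ 2 * r0, r1, r2, r3, r4] ![-γ, 1, 1, 1, 1] ?_ ?_ ?_ ?_ ?_ ?_ ?_
      · simp [pr]
      · simp [pr]
        linear_combination c0
      · simp [pc]
        linear_combination c4
      · simp [pc]
        linear_combination c3
      · simp [pc]
        linear_combination c2
      · simp [pc]
        linear_combination c1
      · intro i j hij
        fin_cases i <;> fin_cases j <;> first | exact absurd rfl hij | skip
        all_goals simp
        all_goals first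
          | assumption
          | (intro h; exact absurd h.symm (by assumption))
          | exact q1 _ _ (by assumption)
          | exact q2 _ _ (by assumption)

end Pool.Agent.Q210.HE
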