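import Mathlib
import Pool.Agent.Q52.HE.Stm

/-!
# A triangle of rational lines
-/

set_option autoImplicit false

namespace Pool.Agent.Q210.HE

open Finset Pool.Agent.Q52.HE

section
variable {K : Type} [Field K]

/-- linear independence of three vectors -/
def Ind3 (A B C : Fin 4 → K) : Prop :=
  ∀ a b c : K, a • A + b • B + c • C = 0 → a = 0 ∧ b = 0 ∧ c = 0

theorem ind3_iff {A B C : Fin 4 → K} : LinearIndependent K ![A, B, C] ↔ Ind3 A B C := by
  rw [Fintype.linearIndependent_iff]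
  constructor
  · intro h a b c habc
    have := h ![a, b, c] (by simpa [Fin.sum_univ_three] using habc)
    exact ⟨this 0, this 1, this 2⟩
  · intro h g hg i
    rw [Fin.sum_univ_three] at hg
    obtain ⟨h0, h1, h2⟩ := h (g 0) (g 1) (g 2) hg
    fin_cases i
    · exact h0
    · exact h1
    · exact h2

theorem finrank_pair {A B : Fin 4 → K} (h : ∀ a b : K, a • A + b • B = 0 → a = 0 ∧ b = 0) :
    Module.finrank K (Submodule.span K {A, B}) = 2 := by
  have h1 : LinearIndependent K ![A, B] := LinearIndependent.pair_iff.mpr h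
  have h2 := finrank_span_eq_card h1
  rw [Matrix.range_cons_cons_empty] at h2
  simpa using h2

theorem ind_of_finrank {u v : Fin 4 → K}
    (h : Module.finrank K (Submodule.span K {u, v}) = 2) : LinearIndependent K ![u, v] := by
  rw [linearIndependent_iff_card_eq_finrank_span, Matrix.range_cons_cons_empty]
  rw [Set.finrank, h]
  rfl

theorem Ind3.pair12 {A B C : Fin 4 → K} (h : Ind3 A B C) (a b : K) (h1 : a • A + b • B = 0) :
    a = 0 ∧ b = 0 := by
  obtain ⟨h2, h3, -⟩ := h a b 0 (by rw [zero_smul, add_zero]; exact h1)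
  exact ⟨h2, h3⟩

theorem Ind3.swap {A B C : Fin 4 → K} (h : Ind3 A B C) : Ind3 B A C := by
  intro a b c h1
  obtain ⟨h2, h3, h4⟩ := h b a c (by rw [← h1]; module)
  exact ⟨h3, h2, h4⟩

theorem Ind3.rot {A B C : Fin 4 → K} (h : Ind3 A B C) : Ind3 B C A := by
  intro a b c h1
  obtain ⟨h2, h3, h4⟩ := h c a b (by rw [← h1]; module)
  exact ⟨h3, h4, h2⟩

/-- a vertex of a triangle of lines defined over `F` is rational -/
theorem rat_vertex (F : Subfield K) {A B C : Fin 4 → K} (h : Ind3 A B C)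
    (h1 : DefinedOver F (Submodule.span K {A, B})) (h2 : DefinedOver F (Submodule.span K {A, C})) :
    ∃ (e : Fin 4 → K) (c : K), RatV F e ∧ c ≠ 0 ∧ e = c • A := by
  obtain ⟨u1, v1, hu1, hv1, hs1⟩ := h1
  obtain ⟨u2, v2, hu2, hv2, hs2⟩ := h2
  have hA1 : A ∈ Submodule.span K {u1, v1} := by
    rw [← hs1]
    exact Submodule.subset_span (by simp)
  have hA2 : A ∈ Submodule.span K {u2, v2} := by
    rw [← hs2]
    exact Submodule.subset_span (by simp)
  obtain ⟨α, β, hαβ⟩ := Submodule.mem_span_pair.mp hA1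
  obtain ⟨γ, δ, hγδ⟩ := Submodule.mem_span_pair.mp hA2
  have hA0 : A ≠ 0 := by
    intro h0
    have := h 1 0 0 (by rw [h0]; simp)
    exact one_ne_zero this.1
  have hind : LinearIndependent K ![u1, v1] := by
    apply ind_of_finrank
    rw [← hs1]
    exact finrank_pair h.pair12
  -- a linear form over the small field
  obtain ⟨φ, hφ⟩ : ∃ φ : K →ₗ[F] F, φ α ≠ 0 ∨ φ β ≠ 0 := by
    by_cases hα : α = 0
    · have hβ : β ≠ 0 := by
        intro hβ
        apply hA0
        rw [← hαβ, hα, hβ, zero_smul, zero_smul, add_zero]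
      by_contra hcon
      push Not at hcon
      exact hβ ((Module.forall_dual_apply_eq_zero_iff F β).mp fun φ => (hcon φ).2)
    · by_contra hcon
      push Not at hcon
      exact hα ((Module.forall_dual_apply_eq_zero_iff F α).mp fun φ => (hcon φ).1)
  have hlin : ∀ (c : K) (t : K), t ∈ F → (φ (c * t) : K) = (φ c : K) * t := by
    intro c t ht
    have h3 : c * t = (⟨t, ht⟩ : F) • c := by
      rw [mul_comm]
      rfl
    rw [h3, map_smul, smul_eq_mul]
    push_cast
    ring
  have hcoord : ∀ (c d : K) (u v : Fin 4 → K), RatV F u → RatV F v → c • u + d • v = A →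
      ∀ i, (φ (A i) : K) = (φ c : K) * u i + (φ d : K) * v i := by
    intro c d u v hu hv hA i
    rw [← hA]
    simp only [Pi.add_apply, Pi.smul_apply, smul_eq_mul]
    rw [map_add]
    push_cast
    rw [hlin c (u i) (hu i), hlin d (v i) (hv i)]
  have he1 : (fun i => (φ (A i) : K)) = (φ α : K) • u1 + (φ β : K) • v1 := by
    ext i
    exact hcoord α β u1 v1 hu1 hv1 hαβ i
  have he2 : (fun i => (φ (A i) : K)) = (φ γ : K) • u2 + (φ δ : K) • v2 := by
    ext i
    exact hcoord γ δ u2 v2 hu2 hv2 hγδ i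
  have hm1 : (fun i => (φ (A i) : K)) ∈ Submodule.span K {A, B} := by
    rw [hs1, he1]
    exact Submodule.mem_span_pair.mpr ⟨_, _, rfl⟩
  have hm2 : (fun i => (φ (A i) : K)) ∈ Submodule.span K {A, C} := by
    rw [hs2, he2]
    exact Submodule.mem_span_pair.mpr ⟨_, _, rfl⟩
  obtain ⟨c1, b1, hc1⟩ := Submodule.mem_span_pair.mp hm1
  obtain ⟨c2, b2, hc2⟩ := Submodule.mem_span_pair.mp hm2
  have h3 := h (c1 - c2) b1 (-b2) (by
    have h4 : c1 • A + b1 • B = c2 • A + b2 • C := hc1.trans hc2.symm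
    have h5 : (c1 - c2) • A + b1 • B + (-b2) • C = (c1 • A + b1 • B) - (c2 • A + b2 • C) := by
      module
    rw [h5, h4, sub_self])
  have hb1 : b1 = 0 := h3.2.1
  refine ⟨fun i => (φ (A i) : K), c1, fun i => (φ (A i)).2, ?_, ?_⟩
  · intro hc0
    rw [hc0, hb1, zero_smul, zero_smul, add_zero] at hc1
    have h6 := LinearIndependent.pair_iff.mp hind (φ α : K) (φ β : K) (he1.symm.trans hc1.symm)
    rcases hφ with h7 | h7
    · exact h7 (Subtype.ext h6.1)
    · exact h7 (Subtype.ext h6.2)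
  · rw [← hc1, hb1, zero_smul, add_zero]

theorem span_smul {A B : Fin 4 → K} {c d : K} (hc : c ≠ 0) (hd : d ≠ 0) :
    Submodule.span K {c • A, d • B} = Submodule.span K {A, B} := by
  apply le_antisymm
  · rw [Submodule.span_le]
    rintro x (rfl | rfl)
    · exact Submodule.smul_mem _ _ (Submodule.subset_span (by simp))
    · exact Submodule.smul_mem _ _ (Submodule.subset_span (by simp))
  · have hA : A ∈ Submodule.span K {c • A, d • B} :=
      Submodule.mem_span_pair.mpr ⟨c⁻¹, 0, by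
        rw [smul_smul, inv_mul_cancel₀ hc, one_smul, zero_smul, add_zero]⟩
    have hB : B ∈ Submodule.span K {c • A, d • B} :=
      Submodule.mem_span_pair.mpr ⟨0, d⁻¹, by
        rw [smul_smul d⁻¹, inv_mul_cancel₀ hd, one_smul, zero_smul, zero_add]⟩
    rw [Submodule.span_le]
    rintro x (rfl | rfl)
    · exact hA
    · exact hB

/-- a triangle of lines defined over `F` is spanned by rational points -/
theorem rat_triangle (F : Subfield K) (a : Arr K) (ha : ∀ W ∈ Lines a, DefinedOver F W)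
    {A B C : Fin 4 → K} (h : Ind3 A B C) (hBC : Submodule.span K {B, C} ∈ Lines a)
    (hAC : Submodule.span K {A, C} ∈ Lines a) (hAB : Submodule.span K {A, B} ∈ Lines a) :
    ∃ e1 e2 e3 : Fin 4 → K, RatV F e1 ∧ RatV F e2 ∧ RatV F e3 ∧
      LinearIndependent K ![e1, e2, e3] ∧ Submodule.span K {e2, e3} ∈ Lines a ∧
      Submodule.span K {e1, e3} ∈ Lines a ∧ Submodule.span K {e1, e2} ∈ Lines a := by
  obtain ⟨e1, c1, hr1, hc1, he1⟩ := rat_vertex F h (ha _ hAB) (ha _ hAC)
  obtain ⟨e2, c2, hr2, hc2, he2⟩ := rat_vertex F (A := B) (B := A) (C := C) h.swap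
    (by rw [Set.pair_comm]; exact ha _ hAB) (ha _ hBC)
  obtain ⟨e3, c3, hr3, hc3, he3⟩ := rat_vertex F (A := C) (B := A) (C := B) h.rot.rot
    (by rw [Set.pair_comm]; exact ha _ hAC) (by rw [Set.pair_comm]; exact ha _ hBC)
  subst he1 he2 he3
  refine ⟨_, _, _, hr1, hr2, hr3, ?_, ?_, ?_, ?_⟩
  · rw [ind3_iff]
    intro a b c habc
    rw [smul_smul, smul_smul, smul_smul] at habc
    obtain ⟨h1, h2, h3⟩ := h _ _ _ habc
    exact ⟨(mul_eq_zero.mp h1).resolve_right hc1, (mul_eq_zero.mp h2).resolve_right hc2,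
      (mul_eq_zero.mp h3).resolve_right hc3⟩
  · rw [span_smul hc2 hc3]
    exact hBC
  · rw [span_smul hc1 hc3]
    exact hAC
  · rw [span_smul hc1 hc2]
    exact hAB

/-- the image of a line -/
theorem map_line {a b : Arr K} (g : (Fin 4 → K) ≃ₗ[K] (Fin 4 → K)) (hg : ∀ x, cub b x = cub a (g x))
    {P Q : Fin 4 → K} (hPQ : ∀ c d : K, c • P + d • Q = 0 → c = 0 ∧ d = 0)
    (L : Submodule K (Fin 4 → K)) (hL : ∀ p ∈ L, cub b p = 0) (hP : P ∈ L) (hQ : Q ∈ L) :
    Submodule.span K {g P, g Q} ∈ Lines a := by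
  refine ⟨finrank_pair fun c d hcd => ?_, fun p hp => ?_⟩
  · apply hPQ
    apply g.injective
    rw [map_add, map_smul, map_smul, map_zero]
    exact hcd
  · obtain ⟨c, d, hcd⟩ := Submodule.mem_span_pair.mp hp
    have h1 : p = g (c • P + d • Q) := by
      rw [map_add, map_smul, map_smul]
      exact hcd.symm
    rw [h1, ← hg]
    exact hL _ (L.add_mem (L.smul_mem _ hP) (L.smul_mem _ hQ))

theorem exists_index (x y : Fin 5 → K) (h : ND x y) : ∃ i, x i ≠ 0 ∧ y i ≠ 0 := by
  by_contra hcon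
  push Not at hcon
  have hx : ∀ i j, i ≠ j → ¬ (x i = 0 ∧ x j = 0) := by
    rintro i j hij ⟨h1, h2⟩
    apply h i j hij
    rw [h1, h2]
    ring
  have hy : ∀ i j, i ≠ j → ¬ (y i = 0 ∧ y j = 0) := by
    rintro i j hij ⟨h1, h2⟩
    apply h i j hij
    rw [h1, h2]
    ring
  have h01 := hx 0 1 (by decide)
  have h02 := hx 0 2 (by decide)
  have h12 := hx 1 2 (by decide)
  have k01 := hy 0 1 (by decide)
  have k02 := hy 0 2 (by decide)
  have k12 := hy 1 2 (by decide)
  have c0 := hcon 0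
  have c1 := hcon 1
  have c2 := hcon 2
  tauto

end

/-- **J11.** -/
theorem tri (h1 : S_grad) (h2 : S_pencil) (h3 : S_nf) (h4 : S_split5) (h5 : S_mem)
    (h6 : S_rel) : S_tri := by
  intro K _ _ F h2K a ha
  obtain ⟨haF, hsm, hcard, hdef⟩ := ha
  have hne : (Lines a).Nonempty := by
    rw [Set.nonempty_iff_ne_empty]
    intro h
    rw [h, Set.ncard_empty] at hcard
    omega
  obtain ⟨W, hW⟩ := hne
  obtain ⟨u, v, hu, hv, hWuv⟩ := hdef W hW
  have hTop : ∀ w : Fin 4 → K, RatV ⊤ w := fun w i => Subfield.mem_top _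
  have hind : LinearIndependent K ![u, v] := by
    apply ind_of_finrank
    rw [← hWuv]
    exact hW.1
  obtain ⟨n1, n2, p0, p1, p2, r0, r1, r2, hn1, hn2, hnn, hp0, hp1, hp2, hr0, hr1, hr2, hgr,
    hres⟩ := h1 K ⊤ h2K a u v (fun _ _ _ => Subfield.mem_top _) hsm (hTop u) (hTop v) hind
      (by rw [← hWuv]; exact hW)
  have hpen := (h2 K ⊤ h2K a u v n1 n2 p0 p1 p2 r0 r1 r2 (hTop u) (hTop v) hind hnn hp0 hp1 hp2
    hr0 hr1 hr2 hgr hres).1
  have hhyp : Hyperbolic ⊤ a W := by
    rw [hWuv, hpen]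
    obtain ⟨r, hr⟩ := IsAlgClosed.exists_pow_nat_eq (res2 p0 p1 p2 r0 r1 r2) (n := 2) two_pos
    exact ⟨r, Subfield.mem_top _, by rw [← hr]; ring⟩
  obtain ⟨β, γ, g3, g2, g1, g0, -, -, -, -, -, -, hrel⟩ := h3 K ⊤ h2K a W
    (fun _ _ _ => Subfield.mem_top _) hsm hW hhyp
  have hinf : Infinite K := IsAlgClosed.instInfinite
  have hsmN : Smooth (arrN β γ g3 g2 g1 g0) := (h6 K ⊤ a _ hrel).1.mp hsm
  obtain ⟨x, y, hnd, hxy⟩ := h4 K h2K β γ g3 g2 g1 g0 hsmN
  rw [hxy] at hrel
  obtain ⟨g, -, hg⟩ := hrel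
  obtain ⟨-, hell, hL, -⟩ := h5 K h2K x y hnd
  obtain ⟨i, hxi, hyi⟩ := exists_index x y hnd
  have hL1 := hL i 1 (Or.inl rfl)
  have hL2 := hL i (-1) (Or.inr rfl)
  have hx2 : x i ^ 2 ≠ 0 := pow_ne_zero _ hxi
  have hind3 : Ind3 (![y i, -x i, 0, 0] : Fin 4 → K) ![y i, x i, 0, 0]
      ![-(others x i * y i ^ 4 / x i), -(others y i * x i ^ 4 / y i), x i ^ 2, y i ^ 2] := by
    intro a b c habc
    have e0 := congrFun habc 0
    have e1 := congrFun habc 1
    have e2 := congrFun habc 2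
    simp at e0 e1 e2
    have hc : c = 0 := by
      rcases e2 with h | h
      · exact h
      · exact absurd h hxi
    rw [hc] at e0 e1
    have h7 : (a + b) * y i = 0 := by linear_combination e0
    have h8 : (b - a) * x i = 0 := by linear_combination e1
    have h9 := (mul_eq_zero.mp h7).resolve_right hyi
    have h10 := (mul_eq_zero.mp h8).resolve_right hxi
    have h11 : 2 * b = 0 := by linear_combination h9 + h10
    have hb : b = 0 := (mul_eq_zero.mp h11).resolve_left h2K
    refine ⟨by rw [hb, add_zero] at h9; exact h9, hb, hc⟩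
  have hgind : Ind3 (g ![y i, -x i, 0, 0]) (g ![y i, x i, 0, 0])
      (g ![-(others x i * y i ^ 4 / x i), -(others y i * x i ^ 4 / y i), x i ^ 2, y i ^ 2]) := by
    intro a b c habc
    apply hind3
    apply g.injective
    rw [map_add, map_add, map_smul, map_smul, map_smul, map_zero]
    exact habc
  have m1 : (![y i, -x i, 0, 0] : Fin 4 → K) ∈ ell := by
    unfold ell
    refine Submodule.mem_span_pair.mpr ⟨y i, -x i, ?_⟩
    ext k
    fin_cases k <;> simp
  have m2 : (![y i, x i, 0, 0] : Fin 4 → K) ∈ ell := by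
    unfold ell
    refine Submodule.mem_span_pair.mpr ⟨y i, x i, ?_⟩
    ext k
    fin_cases k <;> simp
  have m3 : (![y i, -x i, 0, 0] : Fin 4 → K) ∈ lineL x y i 1 := by
    unfold lineL
    refine Submodule.mem_span_pair.mpr ⟨1, 0, ?_⟩
    ext k
    fin_cases k <;> simp
  have m4 : (![y i, x i, 0, 0] : Fin 4 → K) ∈ lineL x y i (-1) := by
    unfold lineL
    refine Submodule.mem_span_pair.mpr ⟨1, 0, ?_⟩
    ext k
    fin_cases k <;> simp
  have m5 : (![-(others x i * y i ^ 4 / x i), -(others y i * x i ^ 4 / y i), x i ^ 2, y i ^ 2] :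
      Fin 4 → K) ∈ lineL x y i 1 := by
    unfold lineL
    refine Submodule.mem_span_pair.mpr ⟨others y i * x i ^ 3 / y i - others x i * y i ^ 3 / x i,
      1, ?_⟩
    ext k
    fin_cases k
    · simp
      field_simp
      ring
    · simp
      field_simp
      ring
    · simp
    · simp
  have m6 : (![-(others x i * y i ^ 4 / x i), -(others y i * x i ^ 4 / y i), x i ^ 2, y i ^ 2] :
      Fin 4 → K) ∈ lineL x y i (-1) := by
    unfold lineL
    refine Submodule.mem_span_pair.mpr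
      ⟨-(others y i * x i ^ 3 / y i + others x i * y i ^ 3 / x i), 1, ?_⟩
    ext k
    fin_cases k
    · simp
      field_simp
      ring
    · simp
      field_simp
      ring
    · simp
    · simp
  refine rat_triangle F a hdef hgind ?_ ?_ ?_
  · exact map_line g hg hind3.rot.pair12 _ hL2.2 m4 m6
  · exact map_line g hg (hind3.swap.rot).pair12 _ hL1.2 m3 m5
  · exact map_line g hg hind3.pair12 _ hell.2 m1 m2

end Pool.Agent.Q210.HE
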